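import Pool.Agent.Helper97_LMD.Defs

/-! The parity colouring of sorted distance vectors. -/

namespace Pool.Agent.Helper97_LMD

open Finset

variable {V : Type*} (G : SimpleGraph V) (S : Finset V)

/-- number of elements of `S` at distance at most `i` from `x`. -/
noncomputable def nle (x : V) (i : ℕ) : ℕ := (S.filter (fun s => G.dist x s ≤ i)).card

theorem nle_le (x : V) (i : ℕ) : nle G S x i ≤ S.card := card_filter_le _ _

theorem nle_mono (x : V) : Monotone (nle G S x) := by
  intro i j hij
  apply card_le_card
  intro s hs
  rw [mem_filter] at hs ⊢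
  exact ⟨hs.1, hs.2.trans hij⟩

theorem nle_eq (x : V) (i : ℕ) (h : ∀ s ∈ S, G.dist x s ≤ i) : nle G S x i = S.card := by
  unfold nle
  rw [filter_true_of_mem h]

variable {G} in
theorem nle_adj (hG : G.Connected) {x y : V} (h : G.Adj x y) (i : ℕ) :
    nle G S x i ≤ nle G S y (i + 1) := by
  apply card_le_card
  intro s hs
  rw [mem_filter] at hs ⊢
  refine ⟨hs.1, ?_⟩
  have h1 := hG.dist_triangle (u := y) (v := x) (w := s)
  have h2 : G.dist y x = 1 := SimpleGraph.dist_eq_one_iff_adj.mpr h.symm
  omega

theorem mrep_eq_of_nle {x y : V} (h : ∀ i, nle G S x i = nle G S y i) :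
    mrep G S x = mrep G S y := by
  classical
  ext a
  unfold mrep
  rw [Multiset.count_map, Multiset.count_map]
  have key : ∀ z : V, (Multiset.card (Multiset.filter (fun s => a = G.dist z s) S.val)) +
      (if a = 0 then 0 else nle G S z (a - 1)) = nle G S z a := by
    intro z
    have e1 : Multiset.card (Multiset.filter (fun s => a = G.dist z s) S.val)
        = (S.filter (fun s => a = G.dist z s)).card := rfl
    rw [e1]
    unfold nle
    split_ifs with h0
    · subst h0
      rw [add_zero]
      congr 1
      ext s
      simp only [mem_filter]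
      constructor
      · rintro ⟨h1, h2⟩; exact ⟨h1, by omega⟩
      · rintro ⟨h1, h2⟩; exact ⟨h1, by omega⟩
    · rw [← card_union_of_disjoint]
      · congr 1
        ext s
        simp only [mem_union, mem_filter]
        constructor
        · rintro (⟨h1, h2⟩ | ⟨h1, h2⟩)
          · exact ⟨h1, by omega⟩
          · exact ⟨h1, by omega⟩
        · rintro ⟨h1, h2⟩
          by_cases h3 : a = G.dist z s
          · exact Or.inl ⟨h1, h3⟩
          · exact Or.inr ⟨h1, by omega⟩
      · rw [disjoint_left]
        intro s h1 h2
        rw [mem_filter] at h1 h2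
        omega
  have k1 := key x
  have k2 := key y
  split_ifs at k1 k2 with h0
  · have := h a; omega
  · have := h a
    have := h (a - 1)
    omega

/-- `vv j x`: number of `i < d` with `nle x i < j`; the `j`-th smallest distance. -/
noncomputable def vv (d : ℕ) (x : V) (j : ℕ) : ℕ :=
  ((range d).filter (fun i => nle G S x i < j)).card

variable {G} in
theorem vv_adj (hG : G.Connected) {x y : V} (h : G.Adj x y) (d j : ℕ) :
    vv G S d y j ≤ vv G S d x j + 1 := by
  unfold vv
  have : ((range d).filter (fun i => nle G S y i < j)) ⊆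
      insert 0 (((range d).filter (fun i => nle G S x i < j)).image (fun i => i + 1)) := by
    intro i hi
    rw [mem_filter, mem_range] at hi
    rw [mem_insert, mem_image]
    rcases Nat.eq_zero_or_pos i with h0 | h0
    · exact Or.inl h0
    · refine Or.inr ⟨i - 1, ?_, by omega⟩
      rw [mem_filter, mem_range]
      refine ⟨by omega, ?_⟩
      have h1 := nle_adj S hG h (i - 1)
      rw [show i - 1 + 1 = i by omega] at h1
      omega
  refine (card_le_card this).trans ?_
  refine (card_insert_le _ _).trans ?_
  have := card_image_le (s := (range d).filter (fun i => nle G S x i < j)) (f := fun i => i + 1)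
  omega

theorem vv_ne (d : ℕ) {x y : V} {i : ℕ} (hi : i < d) (h : nle G S x i < nle G S y i) :
    vv G S d y (nle G S y i) < vv G S d x (nle G S y i) := by
  have h1 : vv G S d y (nle G S y i) ≤ i := by
    unfold vv
    have : ((range d).filter (fun k => nle G S y k < nle G S y i)) ⊆ range i := by
      intro k hk
      rw [mem_filter] at hk
      rw [mem_range]
      by_contra hc
      have := nle_mono G S y (show i ≤ k by omega)
      omega
    simpa using card_le_card this
  have h2 : i + 1 ≤ vv G S d x (nle G S y i) := by
    unfold vv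
    have : range (i + 1) ⊆ ((range d).filter (fun k => nle G S x k < nle G S y i)) := by
      intro k hk
      rw [mem_range] at hk
      rw [mem_filter, mem_range]
      have := nle_mono G S x (show k ≤ i by omega)
      exact ⟨by omega, by omega⟩
    simpa using card_le_card this
  omega

variable {G S} in
/-- Adjacent vertices have different parity vectors. -/
theorem parity_ne (hG : G.Connected) (hS : Resolves G S) {d : ℕ}
    (hd : ∀ x y, G.dist x y ≤ d) {x y : V} (h : G.Adj x y) :
    ∃ j, 1 ≤ j ∧ j ≤ S.card ∧ vv G S d x j % 2 ≠ vv G S d y j % 2 := by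
  by_contra hc
  push Not at hc
  have heq : ∀ j, 1 ≤ j → j ≤ S.card → vv G S d x j = vv G S d y j := by
    intro j h1 h2
    have h3 := hc j h1 h2
    have h4 := vv_adj S hG h d j
    have h5 := vv_adj S hG h.symm d j
    omega
  apply hS x y h
  apply mrep_eq_of_nle
  intro i
  rcases lt_or_ge i d with hi | hi
  · rcases lt_trichotomy (nle G S x i) (nle G S y i) with h1 | h1 | h1
    · have h2 := vv_ne G S d hi h1
      have h3 := heq _ (by omega) (nle_le G S y i)
      omega
    · exact h1
    · have h2 := vv_ne G S d hi h1
      have h3 := heq _ (by omega) (nle_le G S x i)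
      omega
  · rw [nle_eq G S x i (fun s _ => (hd x s).trans hi), nle_eq G S y i (fun s _ => (hd y s).trans hi)]

variable {G} in
/-- Colouring into a finset. -/
theorem colorable_of {α : Type*} (s : Finset α) (f : V → α) (hf : ∀ v, f v ∈ s)
    (h : ∀ x y, G.Adj x y → f x ≠ f y) : G.Colorable s.card := by
  have C : G.Coloring {a // a ∈ s} :=
    SimpleGraph.Coloring.mk (fun v => ⟨f v, hf v⟩) (by
      intro x y hxy heq
      exact h x y hxy (congrArg Subtype.val heq))
  have := C.colorable
  rwa [Fintype.card_coe] at this

variable {G S} in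
/-- First bound: `χ ≤ 2 ^ |S|`. -/
theorem colorable_two_pow (hG : G.Connected) (hS : Resolves G S) {d : ℕ}
    (hd : ∀ x y, G.dist x y ≤ d) : G.Colorable (2 ^ S.card) := by
  have := colorable_of (G := G) ((range S.card).powerset)
    (fun x => (range S.card).filter (fun m => vv G S d x (m + 1) % 2 = 1))
    (fun v => by rw [mem_powerset]; exact filter_subset _ _)
    (by
      intro x y hxy heq
      obtain ⟨j, h1, h2, h3⟩ := parity_ne hG hS hd hxy
      have h4 : (j - 1) ∈ (range S.card).filter (fun m => vv G S d x (m + 1) % 2 = 1) ↔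
          (j - 1) ∈ (range S.card).filter (fun m => vv G S d y (m + 1) % 2 = 1) := by
        rw [heq]
      simp only [mem_filter, mem_range, show j - 1 + 1 = j by omega] at h4
      have h5 : j - 1 < S.card := by omega
      simp only [h5, true_and] at h4
      omega)
  rwa [card_powerset, card_range] at this

/-- the number of indices `i` in `[1,d)` with `nle x i < j`. -/
noncomputable def ww (d : ℕ) (x : V) (j : ℕ) : ℕ :=
  ((Ico 1 d).filter (fun i => nle G S x i < j)).card

theorem ww_zero (d : ℕ) (x : V) : ww G S d x 0 = 0 := by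
  unfold ww
  rw [card_eq_zero, filter_eq_empty_iff]
  intro i _
  omega

theorem ww_mono (d : ℕ) (x : V) : Monotone (ww G S d x) := by
  intro i j hij
  apply card_le_card
  intro s hs
  rw [mem_filter] at hs ⊢
  exact ⟨hs.1, hs.2.trans_le hij⟩

theorem ww_le (d : ℕ) (x : V) (j : ℕ) : ww G S d x j ≤ d - 1 := by
  unfold ww
  refine (card_filter_le _ _).trans ?_
  simp

variable {G S} in
theorem nle_zero (hG : G.Connected) {x : V} (hx : x ∉ S) : nle G S x 0 = 0 := by
  unfold nle
  rw [card_eq_zero, filter_eq_empty_iff]
  intro s hs h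
  have h1 : G.dist x s = 0 := by omega
  rw [hG.dist_eq_zero_iff] at h1
  subst h1
  exact hx hs

variable {G S} in
theorem vv_eq_ww (hG : G.Connected) {d : ℕ} (hd : 1 ≤ d) {x : V} (hx : x ∉ S) {j : ℕ}
    (hj : 1 ≤ j) : vv G S d x j = ww G S d x j + 1 := by
  unfold vv ww
  have : (range d).filter (fun i => nle G S x i < j) =
      insert 0 ((Ico 1 d).filter (fun i => nle G S x i < j)) := by
    ext i
    rw [mem_insert, mem_filter, mem_filter, mem_range, mem_Ico]
    constructor
    · rintro ⟨h1, h2⟩
      rcases Nat.eq_zero_or_pos i with h0 | h0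
      · exact Or.inl h0
      · exact Or.inr ⟨⟨by omega, h1⟩, h2⟩
    · rintro (h0 | ⟨⟨h1, h2⟩, h3⟩)
      · subst h0
        rw [nle_zero hG hx]
        exact ⟨by omega, by omega⟩
      · exact ⟨h2, h3⟩
  rw [this, card_insert_of_notMem]
  rw [mem_filter, mem_Ico]
  omega

/-- the set of parity changes -/
noncomputable def dd (d : ℕ) (x : V) : Finset ℕ :=
  (range S.card).filter (fun m => ww G S d x (m + 1) % 2 ≠ ww G S d x m % 2)

theorem card_changes (f : ℕ → ℕ) (hf : Monotone f) (n : ℕ) :
    ((range n).filter (fun m => f (m + 1) % 2 ≠ f m % 2)).card ≤ f n - f 0 := by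
  induction n with
  | zero => simp
  | succ n ih =>
    rw [range_add_one, filter_insert]
    have h1 := hf (show n ≤ n + 1 by omega)
    have h0 := hf (show 0 ≤ n by omega)
    split_ifs with h
    · refine (card_insert_le _ _).trans ?_
      have : f (n + 1) ≠ f n := by
        intro h2
        rw [h2] at h
        exact h rfl
      omega
    · omega

theorem dd_card (d : ℕ) (x : V) : (dd G S d x).card ≤ d - 1 := by
  unfold dd
  refine (card_changes _ (ww_mono G S d x) _).trans ?_
  have := ww_le G S d x S.card
  omega

theorem dd_inj (d : ℕ) {x y : V} (h : dd G S d x = dd G S d y) :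
    ∀ j ≤ S.card, ww G S d x j % 2 = ww G S d y j % 2 := by
  intro j
  induction j with
  | zero => intro _; rw [ww_zero, ww_zero]
  | succ j ih =>
    intro hj
    have h1 := ih (by omega)
    have h2 : j ∈ dd G S d x ↔ j ∈ dd G S d y := by rw [h]
    unfold dd at h2
    simp only [mem_filter, mem_range, show j < S.card by omega, true_and] at h2
    omega

/-- the colours: subsets of `range k` with at most `d - 1` elements -/
def colors (d k : ℕ) : Finset (Finset ℕ) := ((range k).powerset).filter (fun D => D.card < d)

theorem colors_card (d k : ℕ) : (colors d k).card = ∑ r ∈ range d, k.choose r := by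
  unfold colors
  rw [card_eq_sum_card_fiberwise (f := Finset.card) (t := range d)]
  · apply sum_congr rfl
    intro r hr
    rw [mem_range] at hr
    have : (((range k).powerset).filter (fun D => D.card < d)).filter (fun D => D.card = r) =
        (range k).powersetCard r := by
      ext D
      simp only [mem_filter, mem_powerset, mem_powersetCard]
      constructor
      · rintro ⟨⟨h1, _⟩, h3⟩; exact ⟨h1, h3⟩
      · rintro ⟨h1, h2⟩; exact ⟨⟨h1, by omega⟩, h2⟩
    rw [this, card_powersetCard, card_range]
  · intro D hD
    rw [mem_coe, mem_filter] at hD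
    rw [mem_coe, mem_range]
    exact hD.2

variable {G S} in
/-- Main bound for `d ≥ 3`. -/
theorem colorable_sum (hG : G.Connected) (hS : Resolves G S) {d : ℕ} (hd3 : 3 ≤ d)
    (hd : ∀ x y, G.dist x y ≤ d) : G.Colorable (∑ r ∈ range d, S.card.choose r) := by
  classical
  rw [← colors_card]
  let f : V → Finset ℕ := fun x => if hx : x ∈ S then {0, (S.equivFin ⟨x, hx⟩ : ℕ)}
    else dd G S d x
  have key : ∀ x y, G.Adj x y → x ∉ S → f x ≠ f y := by
    intro x y hxy hx heq
    by_cases hy : y ∈ S
    · have h0 : 0 ∈ f x := by
        rw [heq]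
        simp [f, hy]
      have h1 : 0 ∈ dd G S d x := by simpa [f, hx] using h0
      unfold dd at h1
      rw [mem_filter] at h1
      apply h1.2
      rw [ww_zero]
      have : ww G S d x (0 + 1) = 0 := by
        unfold ww
        rw [card_eq_zero, filter_eq_empty_iff]
        intro i hi
        rw [mem_Ico] at hi
        have h2 : 1 ≤ nle G S x 1 := by
          unfold nle
          rw [Nat.one_le_iff_ne_zero, ← Nat.pos_iff_ne_zero, card_pos]
          refine ⟨y, ?_⟩
          rw [mem_filter]
          exact ⟨hy, (SimpleGraph.dist_eq_one_iff_adj.mpr hxy).le⟩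
        have h3 := nle_mono G S x hi.1
        omega
      rw [this]
    · have h1 : dd G S d x = dd G S d y := by simpa [f, hx, hy] using heq
      obtain ⟨j, hj1, hj2, hj3⟩ := parity_ne hG hS hd hxy
      rw [vv_eq_ww hG (by omega) hx hj1, vv_eq_ww hG (by omega) hy hj1] at hj3
      have := dd_inj G S d h1 j hj2
      omega
  apply colorable_of _ f
  · intro x
    unfold colors
    rw [mem_filter, mem_powerset]
    by_cases hx : x ∈ S
    · have e : f x = {0, (S.equivFin ⟨x, hx⟩ : ℕ)} := by simp [f, hx]
      rw [e]
      constructor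
      · intro m hm
        rw [mem_insert, mem_singleton] at hm
        rw [mem_range]
        rcases hm with h | h
        · subst h
          exact card_pos.mpr ⟨x, hx⟩
        · rw [h]
          exact (S.equivFin ⟨x, hx⟩).2
      · exact lt_of_le_of_lt (card_insert_le _ _) (by rw [card_singleton]; omega)
    · have e : f x = dd G S d x := by simp [f, hx]
      rw [e]
      refine ⟨filter_subset _ _, ?_⟩
      have := dd_card G S d x
      omega
  · intro x y hxy heq
    by_cases hx : x ∈ S
    · by_cases hy : y ∈ S
      · have e1 : f x = {0, (S.equivFin ⟨x, hx⟩ : ℕ)} := by simp [f, hx]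
        have e2 : f y = {0, (S.equivFin ⟨y, hy⟩ : ℕ)} := by simp [f, hy]
        rw [e1, e2] at heq
        have h1 : (S.equivFin ⟨x, hx⟩ : ℕ) = (S.equivFin ⟨y, hy⟩ : ℕ) := by
          have m1 : (S.equivFin ⟨x, hx⟩ : ℕ) ∈ ({0, (S.equivFin ⟨y, hy⟩ : ℕ)} : Finset ℕ) := by
            rw [← heq]; simp
          have m2 : (S.equivFin ⟨y, hy⟩ : ℕ) ∈ ({0, (S.equivFin ⟨x, hx⟩ : ℕ)} : Finset ℕ) := by
            rw [heq]; simp
          rw [mem_insert, mem_singleton] at m1 m2
          omega
        have h2 := (S.equivFin).injective (Fin.ext h1)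
        have h3 : x = y := congrArg Subtype.val h2
        subst h3
        exact G.irrefl hxy
      · exact key y x hxy.symm hy heq.symm
    · exact key x y hxy hx heq

end Pool.Agent.Helper97_LMD
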