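import Mathlib

/-! Local multiset dimension: definitions. -/

namespace Pool.Agent.Helper97_LMD

/-- The multiset representation of `x` with respect to `S`. -/
noncomputable def mrep {V : Type*} (G : SimpleGraph V) (S : Finset V) (x : V) : Multiset ℕ :=
  S.val.map (fun s => G.dist x s)

/-- `S` is a local multiset resolving set of `G`. -/
def Resolves {V : Type*} (G : SimpleGraph V) (S : Finset V) : Prop :=
  ∀ x y, G.Adj x y → mrep G S x ≠ mrep G S y

/-- The local multiset dimension (`⊤` if there is no local multiset resolving set). -/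
noncomputable def ldim {V : Type*} (G : SimpleGraph V) : ℕ∞ :=
  ⨅ (S : Finset V) (_ : Resolves G S), (S.card : ℕ∞)

/-- The lower bound `g(d,c)`. -/
noncomputable def gmin (d c : ℕ) : ℕ :=
  sInf {k : ℕ | (c : ℤ) ≤ ((k + d - 1).choose (d - 1) : ℤ) + ((k + d - 2).choose (d - 1) : ℤ)
    - (d : ℤ) + 1}

/-- There are two (possibly equal) vertices `a`, `b` such that the unordered pair of distances to
`a` and `b` differs at the two ends of every edge. -/
def TwoPoint {V : Type*} (G : SimpleGraph V) : Prop :=
  ∃ a b : V, ∀ x y, G.Adj x y →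
    ¬ ((G.dist x a = G.dist y a ∧ G.dist x b = G.dist y b) ∨
       (G.dist x a = G.dist y b ∧ G.dist x b = G.dist y a))

/-- There is an induced path `u - v - w` such that adjacent vertices outside the path have
different numbers of neighbours on the path. -/
def ThreePath {V : Type*} (G : SimpleGraph V) : Prop :=
  ∃ u v w : V, G.Adj u v ∧ G.Adj v w ∧ ¬ G.Adj u w ∧ u ≠ w ∧
    ∀ x y, x ∉ ({u, v, w} : Set V) → y ∉ ({u, v, w} : Set V) → G.Adj x y →
      ({s ∈ ({u, v, w} : Set V) | G.Adj x s}).ncard ≠ ({s ∈ ({u, v, w} : Set V) | G.Adj y s}).ncard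

end Pool.Agent.Helper97_LMD
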