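import Pool.Agent.Helper97_LMD.Main

/-! An 11-vertex graph of diameter 2, chromatic number 5 and local multiset dimension 3. -/

namespace Pool.Agent.Helper97_LMD.Example

open Finset

/- vertices: u=0 v=1 w=2 z=3 a_u=4 a_v=5 a_w=6 b_uv=7 b_uw=8 b_vw=9 t=10 -/

/-- the part (0: the path, 1: `V_0`, 2: `V_1`, 3: `V_2`, 4: `V_3`) -/
def part (x : Fin 11) : ℕ :=
  if x.val ≤ 2 then 0 else if x.val = 3 then 1 else if x.val ≤ 6 then 2 else if x.val ≤ 9 then 3
  else 4

/-- the edges meeting the path -/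
def pathEdges : List (ℕ × ℕ) :=
  [(0,1),(1,2),(0,4),(1,5),(2,6),(0,7),(1,7),(0,8),(2,8),(1,9),(2,9),(0,10),(1,10),(2,10)]

/-- adjacency test -/
def adjB (x y : Fin 11) : Bool :=
  (decide (part x ≠ 0) && decide (part y ≠ 0) && decide (part x ≠ part y)) ||
    decide ((x.val, y.val) ∈ pathEdges) || decide ((y.val, x.val) ∈ pathEdges)

/-- the graph -/
def H : SimpleGraph (Fin 11) where
  Adj x y := adjB x y = true
  symm := ⟨by decide +kernel⟩
  loopless := ⟨by decide +kernel⟩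

instance : DecidableRel H.Adj := fun x y => inferInstanceAs (Decidable (adjB x y = true))

theorem two_step : ∀ x y : Fin 11, x = y ∨ H.Adj x y ∨ ∃ z, H.Adj x z ∧ H.Adj z y := by
  decide +kernel

theorem connected : H.Connected := by
  rw [SimpleGraph.connected_iff]
  refine ⟨?_, ⟨0⟩⟩
  intro x y
  rcases two_step x y with h | h | ⟨z, h1, h2⟩
  · subst h; exact SimpleGraph.Reachable.refl _
  · exact h.reachable
  · exact h1.reachable.trans h2.reachable

theorem dist_le (x y : Fin 11) : H.dist x y ≤ 2 := by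
  rcases two_step x y with h | h | ⟨z, h1, h2⟩
  · subst h; simp
  · rw [SimpleGraph.dist_eq_one_iff_adj.mpr h]; omega
  · have := connected.dist_triangle (u := x) (v := z) (w := y)
    rw [SimpleGraph.dist_eq_one_iff_adj.mpr h1, SimpleGraph.dist_eq_one_iff_adj.mpr h2] at this
    exact this

theorem diam_eq : H.diam = 2 := by
  have hne : H.ediam ≠ ⊤ := SimpleGraph.connected_iff_ediam_ne_top.mp connected
  obtain ⟨x, y, hxy⟩ := SimpleGraph.exists_dist_eq_diam (G := H)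
  apply le_antisymm
  · rw [← hxy]; exact dist_le x y
  · have h1 : H.dist 0 2 ≤ H.diam := SimpleGraph.dist_le_diam hne
    have h2 : H.dist 0 2 ≠ 0 := by
      rw [Ne, connected.dist_eq_zero_iff]
      decide
    have h3 : H.dist 0 2 ≠ 1 := by
      rw [Ne, SimpleGraph.dist_eq_one_iff_adj]
      decide +kernel
    omega

/-- a proper 5-colouring -/
def col (x : Fin 11) : Fin 5 :=
  if x.val = 1 then 4 else if x.val ≤ 3 then 0 else if x.val ≤ 6 then 1 else if x.val ≤ 9 then 2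
  else 3

theorem colorable_five : H.Colorable 5 :=
  ⟨SimpleGraph.Coloring.mk col (by decide +kernel)⟩

/-- the constraints as a Boolean -/
def chk (z a b t e u v : Fin 4) : Bool :=
  decide (z ≠ a) && decide (z ≠ b) && decide (z ≠ t) && decide (a ≠ b) && decide (a ≠ t) &&
  decide (b ≠ t) && decide (e ≠ z) && decide (e ≠ b) && decide (e ≠ t) && decide (u ≠ a) &&
  decide (u ≠ b) && decide (u ≠ t) && decide (v ≠ e) && decide (v ≠ b) && decide (v ≠ t) &&
  decide (u ≠ v)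

theorem chk_false : ∀ z a b t : Fin 4, ∀ q : Fin 4 × Fin 4 × Fin 4,
    chk z a b t q.1 q.2.1 q.2.2 = false := by
  decide +kernel

theorem four_aux (z a b t e u v : Fin 4) : ¬ ((z ≠ a ∧ z ≠ b ∧ z ≠ t ∧ a ≠ b ∧ a ≠ t ∧ b ≠ t) ∧
    (e ≠ z ∧ e ≠ b ∧ e ≠ t) ∧ (u ≠ a ∧ u ≠ b ∧ u ≠ t) ∧ (v ≠ e ∧ v ≠ b ∧ v ≠ t) ∧ u ≠ v) := by
  rintro ⟨⟨h1, h2, h3, h4, h5, h6⟩, ⟨h7, h8, h9⟩, ⟨h10, h11, h12⟩, ⟨h13, h14, h15⟩, h16⟩
  have h := chk_false z a b t (e, u, v)
  have h' : chk z a b t e u v = true := by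
    unfold chk
    simp only [Bool.and_eq_true, decide_eq_true_eq]
    exact ⟨⟨⟨⟨⟨⟨⟨⟨⟨⟨⟨⟨⟨⟨⟨h1, h2⟩, h3⟩, h4⟩, h5⟩, h6⟩, h7⟩, h8⟩, h9⟩, h10⟩, h11⟩, h12⟩, h13⟩, h14⟩, h15⟩,
      h16⟩
  rw [h] at h'
  exact absurd h' (by decide)

theorem not_colorable_four : ¬ H.Colorable 4 := by
  rintro ⟨C⟩
  have h : ∀ x y : Fin 11, H.Adj x y → C x ≠ C y := fun x y hxy => C.valid hxy
  exact four_aux (C 3) (C 4) (C 7) (C 10) (C 5) (C 0) (C 1)
    ⟨⟨h _ _ (by decide +kernel), h _ _ (by decide +kernel), h _ _ (by decide +kernel),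
      h _ _ (by decide +kernel), h _ _ (by decide +kernel), h _ _ (by decide +kernel)⟩,
    ⟨h _ _ (by decide +kernel), h _ _ (by decide +kernel), h _ _ (by decide +kernel)⟩,
    ⟨h _ _ (by decide +kernel), h _ _ (by decide +kernel), h _ _ (by decide +kernel)⟩,
    ⟨h _ _ (by decide +kernel), h _ _ (by decide +kernel), h _ _ (by decide +kernel)⟩,
    h _ _ (by decide +kernel)⟩

theorem chi_eq : H.chromaticNumber = 5 := by
  apply le_antisymm
  · exact SimpleGraph.chromaticNumber_le_iff_colorable.mpr colorable_five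
  · by_contra hlt
    push Not at hlt
    have : H.chromaticNumber ≤ ((4 : ℕ) : ℕ∞) := le_of_lt_succ (n := 4) (by simpa using hlt)
    exact not_colorable_four (SimpleGraph.chromaticNumber_le_iff_colorable.mp this)

/-- number of neighbours on the path -/
def cnt (x : Fin 11) : ℕ := (adjB x 0).toNat + (adjB x 1).toNat + (adjB x 2).toNat

theorem cnt_ne : ∀ x y : Fin 11, x ≠ 0 → x ≠ 1 → x ≠ 2 → y ≠ 0 → y ≠ 1 → y ≠ 2 → H.Adj x y →
    cnt x ≠ cnt y := by
  decide +kernel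

theorem nbr_eq (S : Finset (Fin 11)) (hS : ∀ s, s ∈ S ↔ s = 0 ∨ s = 1 ∨ s = 2) (x : Fin 11) :
    nbr H S x = cnt x := by
  have hS' : S = {0, 1, 2} := by
    ext s
    rw [hS]
    simp
  subst hS'
  unfold nbr
  rw [filter_insert, filter_insert, filter_singleton]
  unfold cnt
  have e : ∀ y, H.Adj x y ↔ adjB x y = true := fun y => Iff.rfl
  have e0 := e 0
  have e1 := e 1
  have e2 := e 2
  cases h0 : adjB x 0 <;> cases h1 : adjB x 1 <;> cases h2 : adjB x 2 <;>
  · rw [h0] at e0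
    rw [h1] at e1
    rw [h2] at e2
    simp only [Bool.false_eq_true, iff_false, iff_true] at e0 e1 e2
    simp only [e0, e1, e2, if_true, if_false]
    rfl

theorem three_path : ThreePath H := by
  refine ⟨0, 1, 2, by decide +kernel, by decide +kernel, by decide +kernel, by decide, ?_⟩
  intro x y hx hy hxy
  rw [ncard_eq_nbr, ncard_eq_nbr, nbr_eq _ (by simp), nbr_eq _ (by simp)]
  simp only [Set.mem_insert_iff, Set.mem_singleton_iff, not_or] at hx hy
  exact cnt_ne x y hx.1 hx.2.1 hx.2.2 hy.1 hy.2.1 hy.2.2 hxy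

theorem ldim_eq : ldim H = 3 := (three_path_iff connected diam_eq chi_eq).mpr three_path

end Pool.Agent.Helper97_LMD.Example
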