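import Pool.Agent.Helper97_LMD.Two

/-! Small colourings of locally irregular graphs. -/

namespace Pool.Agent.Helper97_LMD

open Finset
open scoped Classical

variable {V : Type*} {G : SimpleGraph V} {S : Finset V}

/-- A locally irregular graph on at least two vertices has a non-adjacent pair. -/
theorem exists_nonadj (h2 : 2 ≤ S.card)
    (hirr : ∀ x ∈ S, ∀ y ∈ S, G.Adj x y → nbr G S x ≠ nbr G S y) :
    ∃ p ∈ S, ∃ q ∈ S, p ≠ q ∧ ¬ G.Adj p q := by
  by_contra hc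
  push Not at hc
  have hn : ∀ x ∈ S, nbr G S x = S.card - 1 := by
    intro x hx
    unfold nbr
    rw [← card_erase_of_mem hx]
    congr 1
    ext s
    rw [mem_filter, mem_erase]
    constructor
    · rintro ⟨h1, h3⟩; exact ⟨h3.ne.symm, h1⟩
    · rintro ⟨h1, h3⟩; exact ⟨h3, hc x hx s h3 h1.symm⟩
  obtain ⟨a, ha, b, hb, hab⟩ := one_lt_card.mp (show 1 < S.card by omega)
  exact hirr a ha b hb (hc a ha b hb hab) (by rw [hn a ha, hn b hb])

/-- core of the argument: center `p`, everything else is a clique. -/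
theorem star_absurd {p q : V} (h4 : 4 ≤ S.card) (hp : p ∈ S) (hq : q ∈ S) (hpq : p ≠ q)
    (hna : ¬ G.Adj p q)
    (hirr : ∀ x ∈ S, ∀ y ∈ S, G.Adj x y → nbr G S x ≠ nbr G S y)
    (hO : ∀ x ∈ S, ∀ y ∈ S, x ≠ p → y ≠ p → x ≠ q → y ≠ q → x ≠ y → G.Adj x y)
    (hqO : ∀ x ∈ S, x ≠ p → x ≠ q → G.Adj q x) : False := by
  have hcardO : ((S.erase p).erase q).card = S.card - 2 := by
    rw [card_erase_of_mem (mem_erase.mpr ⟨hpq.symm, hq⟩), card_erase_of_mem hp]; omega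
  have hnq : nbr G S q = S.card - 2 := by
    rw [← hcardO]
    unfold nbr
    congr 1
    ext s
    rw [mem_filter, mem_erase, mem_erase]
    constructor
    · rintro ⟨h1, h3⟩
      refine ⟨h3.ne.symm, ?_, h1⟩
      rintro rfl
      exact hna h3.symm
    · rintro ⟨h1, h3, h5⟩; exact ⟨h5, hqO s h5 h3 h1⟩
  -- all others are adjacent to p
  have hpO : ∀ x ∈ S, x ≠ p → x ≠ q → G.Adj p x := by
    intro x hx hxp hxq
    by_contra hnx
    have hnx2 : nbr G S x = S.card - 2 := by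
      have : ((S.erase p).erase x).card = S.card - 2 := by
        rw [card_erase_of_mem (mem_erase.mpr ⟨hxp, hx⟩), card_erase_of_mem hp]; omega
      rw [← this]
      unfold nbr
      congr 1
      ext s
      rw [mem_filter, mem_erase, mem_erase]
      constructor
      · rintro ⟨h1, h3⟩
        refine ⟨h3.ne.symm, ?_, h1⟩
        rintro rfl
        exact hnx h3.symm
      · rintro ⟨h1, h3, h5⟩
        refine ⟨h5, ?_⟩
        by_cases hsq : s = q
        · subst hsq; exact (hqO x hx hxp hxq).symm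
        · exact hO x hx s h5 hxp h3 hxq hsq h1.symm
    exact hirr q hq x hx (hqO x hx hxp hxq) (by rw [hnq, hnx2])
  have hnx : ∀ x ∈ S, x ≠ p → x ≠ q → nbr G S x = S.card - 1 := by
    intro x hx hxp hxq
    rw [← card_erase_of_mem hx]
    unfold nbr
    congr 1
    ext s
    rw [mem_filter, mem_erase]
    constructor
    · rintro ⟨h1, h3⟩; exact ⟨h3.ne.symm, h1⟩
    · rintro ⟨h1, h3⟩
      refine ⟨h3, ?_⟩
      by_cases hsq : s = q
      · subst hsq; exact (hqO x hx hxp hxq).symm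
      · by_cases hsp : s = p
        · subst hsp; exact (hpO x hx hxp hxq).symm
        · exact hO x hx s h3 hxp hsp hxq hsq h1.symm
  obtain ⟨a, ha, b, hb, hab⟩ := one_lt_card.mp (show 1 < ((S.erase p).erase q).card by omega)
  rw [mem_erase, mem_erase] at ha hb
  exact hirr a ha.2.2 b hb.2.2 (hO a ha.2.2 b hb.2.2 ha.2.1 hb.2.1 ha.1 hb.1 hab)
    (by rw [hnx a ha.2.2 ha.2.1 ha.1, hnx b hb.2.2 hb.2.1 hb.1])

theorem exists_small (h4 : 4 ≤ S.card)
    (hirr : ∀ x ∈ S, ∀ y ∈ S, G.Adj x y → nbr G S x ≠ nbr G S y) :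
    ∃ (C : Finset V) (f : V → V) (p : V), p ∈ C ∧ (∀ s ∈ S, f s ∈ C) ∧
      (∀ s ∈ S, ∀ t ∈ S, G.Adj s t → f s ≠ f t) ∧ C.card = S.card - 2 := by
  by_contra hc
  have hT : ∀ p ∈ S, ∀ q ∈ S, ∀ r ∈ S, p ≠ q → p ≠ r → q ≠ r → ¬ G.Adj p q → ¬ G.Adj p r →
      ¬ G.Adj q r → False := by
    intro p hp q hq r hr hpq hpr hqr h1 h2 h3
    obtain ⟨f, a, b, c⟩ := triple_coloring (S := S) hp hpq hpr h1 h2 h3
    refine hc ⟨_, f, p, a, b, c, ?_⟩
    rw [card_erase_of_mem (mem_erase.mpr ⟨hqr.symm, hr⟩), card_erase_of_mem hq]; omega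
  have hP : ∀ p ∈ S, ∀ q ∈ S, ∀ r ∈ S, ∀ t ∈ S, p ≠ q → p ≠ r → p ≠ t → q ≠ r → q ≠ t → r ≠ t →
      ¬ G.Adj p q → ¬ G.Adj r t → False := by
    intro p hp q hq r hr t ht hpq hpr hpt hqr hqt hrt h1 h2
    obtain ⟨f, a, b, c⟩ := pairs_coloring (S := S) hp hr hpq hpt hqr.symm hrt hpr hqt h1 h2
    refine hc ⟨_, f, p, a, b, c, ?_⟩
    rw [card_erase_of_mem (mem_erase.mpr ⟨hqt.symm, ht⟩), card_erase_of_mem hq]; omega
  obtain ⟨p, hp, q, hq, hpq, hna⟩ := exists_nonadj (by omega) hirr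
  have hO : ∀ x ∈ S, ∀ y ∈ S, x ≠ p → y ≠ p → x ≠ q → y ≠ q → x ≠ y → G.Adj x y := by
    intro x hx y hy h1 h2 h3 h5 h6
    by_contra h7
    exact hP p hp q hq x hx y hy hpq h1.symm h2.symm h3.symm h5.symm h6 hna h7
  have hsplit : (∀ x ∈ S, x ≠ p → x ≠ q → G.Adj q x) ∨ (∀ x ∈ S, x ≠ p → x ≠ q → G.Adj p x) := by
    by_contra hn
    push Not at hn
    obtain ⟨⟨x, hx, hx1, hx2, hx3⟩, ⟨y, hy, hy1, hy2, hy3⟩⟩ := hn
    by_cases hxy : x = y
    · subst hxy
      exact hT p hp q hq x hx hpq hx1.symm hx2.symm hna hy3 hx3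
    · exact hP p hp y hy q hq x hx hy1.symm hpq hx1.symm hy2 (Ne.symm hxy) hx2.symm hy3 hx3
  rcases hsplit with h | h
  · exact star_absurd h4 hp hq hpq hna hirr hO h
  · refine star_absurd h4 hq hp hpq.symm (fun h' => hna h'.symm) hirr ?_ ?_
    · intro x hx y hy h1 h2 h3 h5 h6
      exact hO x hx y hy h3 h5 h1 h2 h6
    · intro x hx h1 h2
      exact h x hx h2 h1

end Pool.Agent.Helper97_LMD
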