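import Pool.Agent.Helper97_LMD.Defs

/-! Numerical facts on the bound. -/

namespace Pool.Agent.Helper97_LMD

open Finset

theorem sum_choose_le (d k : ℕ) (hd : 3 ≤ d) (hk : 3 ≤ k) :
    (∑ r ∈ range d, k.choose r) + (d - 1) ≤
      (k - 1 + d - 1).choose (d - 1) + (k - 1 + d - 2).choose (d - 1) := by
  have h1 : (k - 1 + d - 1).choose (d - 1) = ∑ i ∈ range d, k.choose i * (d - 2).choose (d - 1 - i) := by
    rw [show k - 1 + d - 1 = k + (d - 2) by omega, Nat.add_choose_eq,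
      Finset.Nat.sum_antidiagonal_eq_sum_range_succ (fun i j => k.choose i * (d - 2).choose j),
      show (d - 1).succ = d by omega]
  have h2 : ∑ r ∈ range d, k.choose r ≤
      1 + ∑ i ∈ range d, k.choose i * (d - 2).choose (d - 1 - i) := by
    obtain ⟨e, rfl⟩ : ∃ e, d = e + 1 := ⟨d - 1, by omega⟩
    rw [sum_range_succ', sum_range_succ' (fun i => k.choose i * (e + 1 - 2).choose (e + 1 - 1 - i))]
    simp only [Nat.choose_zero_right]
    have : ∑ i ∈ range e, k.choose (i + 1) ≤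
        ∑ i ∈ range e, k.choose (i + 1) * (e + 1 - 2).choose (e + 1 - 1 - (i + 1)) := by
      apply sum_le_sum
      intro i hi
      rw [mem_range] at hi
      exact Nat.le_mul_of_pos_right _ (Nat.choose_pos (by omega))
    omega
  have h3 : d ≤ (k - 1 + d - 2).choose (d - 1) := by
    calc d = d.choose (d - 1) := by
          rw [← Nat.choose_symm (show d - 1 ≤ d by omega), show d - (d - 1) = 1 by omega,
            Nat.choose_one_right]
      _ ≤ (k - 1 + d - 2).choose (d - 1) := Nat.choose_le_choose _ (by omega)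
  rw [h1]
  omega

theorem gmin_le {d c k : ℕ} (h : (c : ℤ) ≤ ((k + d - 1).choose (d - 1) : ℤ) +
    ((k + d - 2).choose (d - 1) : ℤ) - (d : ℤ) + 1) : gmin d c ≤ k := Nat.sInf_le h

theorem choose_two_aux (d : ℕ) (hd : 2 ≤ d) :
    (2 + d - 1).choose (d - 1) + (2 + d - 2).choose (d - 1) = (d + 1) * d / 2 + d := by
  have h1 : (2 + d - 1).choose (d - 1) = (d + 1) * d / 2 := by
    rw [show 2 + d - 1 = d + 1 by omega, ← Nat.choose_symm (show d - 1 ≤ d + 1 by omega),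
      show d + 1 - (d - 1) = 2 by omega, Nat.choose_two_right]
    rfl
  have h2 : (2 + d - 2).choose (d - 1) = d := by
    rw [show 2 + d - 2 = d by omega, ← Nat.choose_symm (show d - 1 ≤ d by omega),
      show d - (d - 1) = 1 by omega, Nat.choose_one_right]
  rw [h1, h2]

/-- value at `k = 2` is at least `4`. -/
theorem T_two (d : ℕ) (hd : 2 ≤ d) : (4 : ℤ) ≤ ((2 + d - 1).choose (d - 1) : ℤ) +
    ((2 + d - 2).choose (d - 1) : ℤ) - (d : ℤ) + 1 := by
  have h := choose_two_aux d hd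
  have h2 : 3 ≤ (d + 1) * d / 2 := by
    rw [Nat.le_div_iff_mul_le (by norm_num)]
    nlinarith
  have h3 : ((2 + d - 1).choose (d - 1) : ℤ) + ((2 + d - 2).choose (d - 1) : ℤ) =
      (((d + 1) * d / 2 + d : ℕ) : ℤ) := by
    rw [← h]; push_cast; ring
  rw [h3]
  push_cast
  have h4 : (3 : ℤ) ≤ (((d + 1) * d / 2 : ℕ) : ℤ) := by exact_mod_cast h2
  push_cast at h4
  linarith

theorem T_one (d : ℕ) (hd : 2 ≤ d) : ((1 + d - 1).choose (d - 1) : ℤ) +
    ((1 + d - 2).choose (d - 1) : ℤ) - (d : ℤ) + 1 = 2 := by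
  have h1 : (1 + d - 1).choose (d - 1) = d := by
    rw [show 1 + d - 1 = d by omega, ← Nat.choose_symm (show d - 1 ≤ d by omega),
      show d - (d - 1) = 1 by omega, Nat.choose_one_right]
  have h2 : (1 + d - 2).choose (d - 1) = 1 := by
    rw [show 1 + d - 2 = d - 1 by omega, Nat.choose_self]
  rw [h1, h2]
  push_cast
  ring

theorem T_zero (d : ℕ) (hd : 2 ≤ d) : ((0 + d - 1).choose (d - 1) : ℤ) +
    ((0 + d - 2).choose (d - 1) : ℤ) - (d : ℤ) + 1 ≤ 0 := by
  have h1 : (0 + d - 1).choose (d - 1) = 1 := by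
    rw [show 0 + d - 1 = d - 1 by omega, Nat.choose_self]
  have h2 : (0 + d - 2).choose (d - 1) = 0 := by
    apply Nat.choose_eq_zero_of_lt
    omega
  rw [h1, h2]
  have : (2 : ℤ) ≤ d := by exact_mod_cast hd
  push_cast
  linarith

/-- If `g(d,c) ≤ 2` is witnessed by `c ≤ 4` and `3 ≤ c` then `g(d,c) = 2`. -/
theorem gmin_eq_two {d c : ℕ} (hd : 2 ≤ d) (h3 : 3 ≤ c) (h4 : c ≤ 4) : gmin d c = 2 := by
  have hmem : (2 : ℕ) ∈ {k : ℕ | (c : ℤ) ≤ ((k + d - 1).choose (d - 1) : ℤ) +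
      ((k + d - 2).choose (d - 1) : ℤ) - (d : ℤ) + 1} := by
    have := T_two d hd
    have h5 : (c : ℤ) ≤ 4 := by exact_mod_cast h4
    exact h5.trans this
  have hin := Nat.sInf_mem ⟨2, hmem⟩
  have hle : gmin d c ≤ 2 := Nat.sInf_le hmem
  have h3' : (3 : ℤ) ≤ c := by exact_mod_cast h3
  change (c : ℤ) ≤ ((gmin d c + d - 1).choose (d - 1) : ℤ) +
      ((gmin d c + d - 2).choose (d - 1) : ℤ) - (d : ℤ) + 1 at hin
  interval_cases h : gmin d c
  · have := T_zero d hd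
    omega
  · have := T_one d hd
    omega
  · rfl

theorem gmin_eq_one {d c : ℕ} (hd : 2 ≤ d) (hc : c = 2) : gmin d c = 1 := by
  subst hc
  have hmem : (1 : ℕ) ∈ {k : ℕ | ((2 : ℕ) : ℤ) ≤ ((k + d - 1).choose (d - 1) : ℤ) +
      ((k + d - 2).choose (d - 1) : ℤ) - (d : ℤ) + 1} := by
    have := T_one d hd
    rw [Set.mem_ofPred_eq, this]
    norm_num
  have hin := Nat.sInf_mem ⟨1, hmem⟩
  have hle : gmin d 2 ≤ 1 := Nat.sInf_le hmem
  change ((2 : ℕ) : ℤ) ≤ ((gmin d 2 + d - 1).choose (d - 1) : ℤ) +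
      ((gmin d 2 + d - 2).choose (d - 1) : ℤ) - (d : ℤ) + 1 at hin
  interval_cases h : gmin d 2
  · have := T_zero d hd
    push_cast at hin
    omega
  · rfl

theorem gmin_two_five : gmin 2 5 = 3 := by
  have hmem : (3 : ℕ) ∈ {k : ℕ | ((5 : ℕ) : ℤ) ≤ ((k + 2 - 1).choose (2 - 1) : ℤ) +
      ((k + 2 - 2).choose (2 - 1) : ℤ) - ((2 : ℕ) : ℤ) + 1} := by
    rw [Set.mem_ofPred_eq]
    norm_num [Nat.choose]
  have hin := Nat.sInf_mem ⟨3, hmem⟩
  have hle : gmin 2 5 ≤ 3 := Nat.sInf_le hmem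
  change ((5 : ℕ) : ℤ) ≤ ((gmin 2 5 + 2 - 1).choose (2 - 1) : ℤ) +
      ((gmin 2 5 + 2 - 2).choose (2 - 1) : ℤ) - ((2 : ℕ) : ℤ) + 1 at hin
  interval_cases h : gmin 2 5
  · norm_num [Nat.choose] at hin
  · norm_num [Nat.choose] at hin
  · norm_num [Nat.choose] at hin
  · rfl

theorem gmin_two_le {c k : ℕ} (h : c ≤ 2 * k) : gmin 2 c ≤ k := by
  apply gmin_le
  rw [show k + 2 - 1 = k + 1 by omega, show k + 2 - 2 = k by omega, show 2 - 1 = 1 by norm_num,
    Nat.choose_one_right, Nat.choose_one_right]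
  push_cast
  have : (c : ℤ) ≤ 2 * k := by exact_mod_cast h
  linarith

end Pool.Agent.Helper97_LMD
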