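import Pool.Agent.Helper97_LMD.Irr
import Pool.Agent.Helper97_LMD.Num

/-! The characterisation. -/

namespace Pool.Agent.Helper97_LMD

open Finset
open scoped Classical

variable {V : Type*} {G : SimpleGraph V}

theorem ldim_le_iff (G : SimpleGraph V) (n : ℕ) :
    ldim G ≤ n ↔ ∃ S, Resolves G S ∧ S.card ≤ n := by
  constructor
  · intro h
    by_contra hc
    push Not at hc
    have h1 : ((n + 1 : ℕ) : ℕ∞) ≤ ldim G := by
      unfold ldim
      refine le_iInf fun S => le_iInf fun hS => ?_
      have := hc S hS
      exact_mod_cast this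
    have h2 := h1.trans h
    have h3 : n + 1 ≤ n := by exact_mod_cast h2
    omega
  · rintro ⟨S, hS, hn⟩
    unfold ldim
    refine (iInf₂_le S hS).trans ?_
    exact_mod_cast hn

theorem le_of_lt_succ {x : ℕ∞} {n : ℕ} (h : x < ((n + 1 : ℕ) : ℕ∞)) : x ≤ (n : ℕ∞) := by
  have hx : x ≠ ⊤ := ne_top_of_lt h
  lift x to ℕ using hx
  have : x < n + 1 := by exact_mod_cast h
  exact_mod_cast (show x ≤ n by omega)

theorem exists_adj (hG : G.Connected) {x y : V} (h : x ≠ y) : ∃ z, G.Adj x z := by
  obtain ⟨p⟩ := hG.preconnected x y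
  cases p with
  | nil => exact absurd rfl h
  | cons h' _ => exact ⟨_, h'⟩

theorem dist_le_of_diam {d : ℕ} (hd : G.diam = d) (hd2 : 2 ≤ d) : ∀ x y, G.dist x y ≤ d := by
  intro x y
  rw [← hd]
  apply SimpleGraph.dist_le_diam
  apply SimpleGraph.ediam_ne_top_of_diam_ne_zero
  omega

theorem exists_edge {d : ℕ} (hG : G.Connected) (hd : G.diam = d) (hd2 : 2 ≤ d) :
    ∃ x y, G.Adj x y := by
  have := hG.nonempty
  obtain ⟨x, y, hxy⟩ := SimpleGraph.exists_dist_eq_diam (G := G)
  have hne : x ≠ y := by
    rintro rfl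
    rw [SimpleGraph.dist_self] at hxy
    omega
  obtain ⟨z, hz⟩ := exists_adj hG hne
  exact ⟨x, z, hz⟩

theorem two_le_of_edge {c : ℕ} (hc : G.Colorable c) {x y : V} (h : G.Adj x y) : 2 ≤ c := by
  obtain ⟨C⟩ := hc
  have h1 := C.valid h
  by_contra hlt
  have : ∀ a b : Fin c, a = b := by
    intro a b
    ext
    omega
  exact h1 (this _ _)

theorem ldim_ne_zero {x y : V} (h : G.Adj x y) : ¬ ldim G ≤ (0 : ℕ) := by
  rw [ldim_le_iff]
  rintro ⟨S, hS, hcard⟩
  have : S = ∅ := card_eq_zero.mp (by omega)
  subst this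
  exact hS x y h (by simp [mrep])

/-- two-colourable connected graphs are resolved by any vertex. -/
theorem resolves_single (hG : G.Connected) (h2 : G.Colorable 2) (a : V) : Resolves G {a} := by
  intro x y hxy heq
  have h1 : G.dist x a = G.dist y a := by
    unfold mrep at heq
    simpa using heq
  obtain ⟨C⟩ := h2
  have C' : G.Coloring Bool := SimpleGraph.Coloring.mk (fun v => C v == 0) (by
    intro v w hvw heq
    have := C.valid hvw
    apply this
    simp only [beq_eq_beq] at heq
    have h3 : (C v).val < 2 := (C v).2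
    have h4 : (C w).val < 2 := (C w).2
    ext
    by_cases h5 : C v = 0
    · rw [h5, heq.mp h5]
    · have h6 : C w ≠ 0 := fun h => h5 (heq.mpr h)
      have h7 : (C v).val ≠ 0 := fun h => h5 (Fin.ext h)
      have h8 : (C w).val ≠ 0 := fun h => h6 (Fin.ext h)
      omega)
  obtain ⟨p, hp⟩ := hG.exists_walk_length_eq_dist x a
  obtain ⟨q, hq⟩ := hG.exists_walk_length_eq_dist y a
  have e1 := C'.even_length_iff_congr p
  have e2 := C'.even_length_iff_congr q
  rw [hp] at e1
  rw [hq] at e2
  have hne := C'.valid hxy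
  rw [h1] at e1
  apply hne
  by_cases hev : Even (G.dist y a)
  · have a1 := e1.mp hev
    have a2 := e2.mp hev
    exact Bool.eq_iff_iff.mpr (a1.trans a2.symm)
  · have a1 : ¬ (C' x ↔ C' a) := fun h => hev (e1.mpr h)
    have a2 : ¬ (C' y ↔ C' a) := fun h => hev (e2.mpr h)
    cases h1 : C' x <;> cases h2 : C' y <;> cases h3 : C' a <;> simp_all

variable {c d : ℕ}

theorem le_of_colorable (hc : G.chromaticNumber = c) {n : ℕ} (h : G.Colorable n) : c ≤ n := by
  have := SimpleGraph.chromaticNumber_le_iff_colorable.mpr h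
  rw [hc] at this
  exact_mod_cast this

theorem colorable_c (hc : G.chromaticNumber = c) : G.Colorable c :=
  SimpleGraph.chromaticNumber_le_iff_colorable.mp hc.le

theorem c_le_four (hG : G.Connected) (hd : G.diam = d) (hd2 : 2 ≤ d)
    (hc : G.chromaticNumber = c) (h : ldim G ≤ 2) : c ≤ 4 := by
  obtain ⟨S, hS, hcard⟩ := (ldim_le_iff G 2).mp h
  have h1 := colorable_two_pow hG hS (dist_le_of_diam hd hd2)
  have h2 := le_of_colorable hc h1
  have h3 : 2 ^ S.card ≤ 2 ^ 2 := Nat.pow_le_pow_right (by norm_num) hcard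
  omega

/-- First form of the characterisation. -/
theorem main_one (hG : G.Connected) (hd : G.diam = d) (hd2 : 2 ≤ d)
    (hc : G.chromaticNumber = c) :
    ldim G = gmin d c ↔ (ldim G ≤ 2 ∨ (d = 2 ∧ c = 5 ∧ ldim G = 3)) := by
  have hdist := dist_le_of_diam hd hd2
  obtain ⟨a, b, hab⟩ := exists_edge hG hd hd2
  constructor
  · intro h
    by_cases h2 : ldim G ≤ 2
    · exact Or.inl h2
    right
    have hk : 3 ≤ gmin d c := by
      by_contra hlt
      apply h2
      rw [h]
      have : gmin d c ≤ 2 := by omega
      exact_mod_cast this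
    obtain ⟨S, hS, hcard⟩ := (ldim_le_iff G (gmin d c)).mp h.le
    have hcard' : S.card = gmin d c := by
      apply le_antisymm hcard
      have h3 : ldim G ≤ S.card := (ldim_le_iff G S.card).mpr ⟨S, hS, le_rfl⟩
      rw [h] at h3
      exact_mod_cast h3
    rcases Nat.lt_or_ge 2 d with hd3 | hd3
    · exfalso
      have h1 := le_of_colorable hc (colorable_sum hG hS hd3 hdist)
      have h2 := sum_choose_le d S.card hd3 (by omega)
      have h3 : gmin d c ≤ S.card - 1 := by
        apply gmin_le
        have h4 : c + (d - 1) ≤ (S.card - 1 + d - 1).choose (d - 1) +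
          (S.card - 1 + d - 2).choose (d - 1) := by omega
        have h5 : ((c + (d - 1) : ℕ) : ℤ) ≤ (((S.card - 1 + d - 1).choose (d - 1) +
          (S.card - 1 + d - 2).choose (d - 1) : ℕ) : ℤ) := by exact_mod_cast h4
        rw [Nat.cast_add, Nat.cast_add, Nat.cast_sub (by omega)] at h5
        push_cast at h5
        linarith
      omega
    · have hd' : d = 2 := by omega
      subst hd'
      have hirr : ∀ x ∈ S, ∀ y ∈ S, G.Adj x y → nbr G S x ≠ nbr G S y := by
        intro x hx y hy hxy
        exact (resolves_iff hG hdist).mp hS x y (by simp [hx, hy]) hxy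
      rcases Nat.lt_or_ge 3 S.card with h4 | h4
      · exfalso
        obtain ⟨C, f, p, hp, hf, hf2, hC⟩ := exists_small h4 hirr
        have h1 := le_of_colorable hc (colorable_add hG hdist hS C f p hp hf hf2)
        have h2 : gmin 2 c ≤ S.card - 1 := gmin_two_le (by omega)
        omega
      · have h3 : S.card = 3 := by omega
        obtain ⟨p, hp, q, hq, hpq, hna⟩ := exists_nonadj (by omega) hirr
        obtain ⟨f, hp', hf, hf2⟩ := pair_coloring hp hq hpq hna
        have h1 := le_of_colorable hc (colorable_add hG hdist hS _ f p hp' hf hf2)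
        rw [card_erase_of_mem hq] at h1
        refine ⟨rfl, ?_, ?_⟩
        · by_contra h5
          have h2 : gmin 2 c ≤ 2 := gmin_two_le (by omega)
          omega
        · rw [h, ← hcard', h3]; rfl
  · rintro (h | ⟨rfl, rfl, h⟩)
    · have hc2 := two_le_of_edge (colorable_c hc) hab
      have hc4 := c_le_four hG hd hd2 hc h
      by_cases h1 : ldim G ≤ (1 : ℕ)
      · obtain ⟨S, hS, hcard⟩ := (ldim_le_iff G 1).mp h1
        have h2 := le_of_colorable hc (colorable_two_pow hG hS hdist)
        have h3 : 2 ^ S.card ≤ 2 ^ 1 := Nat.pow_le_pow_right (by norm_num) hcard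
        have h4 : c = 2 := by omega
        rw [gmin_eq_one hd2 h4]
        apply le_antisymm h1
        by_contra h5
        apply ldim_ne_zero hab
        push Not at h5
        exact le_of_lt_succ (n := 0) (by simpa using h5)
      · have h3 : 3 ≤ c := by
          by_contra hlt
          apply h1
          have h4 : G.Colorable 2 := (colorable_c hc).mono (by omega)
          exact (ldim_le_iff G 1).mpr ⟨{a}, resolves_single hG h4 a, by simp⟩
        rw [gmin_eq_two hd2 h3 hc4]
        apply le_antisymm h
        by_contra h5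
        apply h1
        push Not at h5
        exact le_of_lt_succ (n := 1) (by simpa using h5)
    · rw [gmin_two_five, h]; rfl

theorem mrep_pair {a b : V} (hab : a ≠ b) (x : V) :
    mrep G {a, b} x = {G.dist x a, G.dist x b} := by
  unfold mrep
  rw [insert_val, Multiset.ndinsert_of_notMem (by simpa using hab)]
  rw [Multiset.map_cons]
  simp only [singleton_val, Multiset.map_singleton]
  rfl

theorem multiset_pair_eq {a b c d : ℕ} (h : ({a, b} : Multiset ℕ) = {c, d}) :
    (a = c ∧ b = d) ∨ (a = d ∧ b = c) := by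
  have h1 : a ∈ ({c, d} : Multiset ℕ) := by rw [← h]; simp
  simp only [Multiset.insert_eq_cons, Multiset.mem_cons, Multiset.mem_singleton] at h1
  rcases h1 with h1 | h1
  · subst h1
    left
    refine ⟨rfl, ?_⟩
    simpa using h
  · subst h1
    right
    refine ⟨rfl, ?_⟩
    rw [Multiset.pair_comm c a] at h
    simpa using h

theorem two_point_iff (hG : G.Connected) {x₀ y₀ : V} (hxy : G.Adj x₀ y₀) :
    ldim G ≤ 2 ↔ TwoPoint G := by
  constructor
  · intro h
    obtain ⟨S, hS, hcard⟩ := (ldim_le_iff G 2).mp h
    have h0 : S.card ≠ 0 := by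
      intro h0
      have : S = ∅ := card_eq_zero.mp h0
      subst this
      exact hS x₀ y₀ hxy (by simp [mrep])
    rcases (show S.card = 1 ∨ S.card = 2 by omega) with h1 | h1
    · obtain ⟨a, rfl⟩ := card_eq_one.mp h1
      refine ⟨a, a, ?_⟩
      rintro x y hadj (⟨h2, _⟩ | ⟨h2, _⟩) <;>
      · apply hS x y hadj
        simp [mrep, h2]
    · obtain ⟨a, b, hab, rfl⟩ := card_eq_two.mp h1
      refine ⟨a, b, ?_⟩
      rintro x y hadj (⟨h2, h3⟩ | ⟨h2, h3⟩)
      · apply hS x y hadj
        rw [mrep_pair hab, mrep_pair hab, h2, h3]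
      · apply hS x y hadj
        rw [mrep_pair hab, mrep_pair hab, h2, h3, Multiset.pair_comm]
  · rintro ⟨a, b, h⟩
    by_cases hab : a = b
    · subst hab
      refine (ldim_le_iff G 2).mpr ⟨{a}, ?_, by simp⟩
      intro x y hadj heq
      have h1 : G.dist x a = G.dist y a := by
        unfold mrep at heq
        simpa using heq
      exact h x y hadj (Or.inl ⟨h1, h1⟩)
    · refine (ldim_le_iff G 2).mpr ⟨{a, b}, ?_, by rw [card_pair hab]⟩
      intro x y hadj heq
      rw [mrep_pair hab, mrep_pair hab] at heq
      exact h x y hadj (multiset_pair_eq heq)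

theorem ncard_eq_nbr (u v w x : V) :
    ({s ∈ ({u, v, w} : Set V) | G.Adj x s}).ncard = nbr G {u, v, w} x := by
  unfold nbr
  rw [← Set.ncard_coe_finset]
  congr 1
  ext s
  simp

theorem three_path_iff (hG : G.Connected) (hd : G.diam = 2) (hc : G.chromaticNumber = (5 : ℕ)) :
    ldim G = 3 ↔ ThreePath G := by
  have hdist := dist_le_of_diam hd (le_refl 2)
  constructor
  · intro h
    obtain ⟨S, hS, hcard⟩ := (ldim_le_iff G 3).mp h.le
    have hcard' : S.card = 3 := by
      apply le_antisymm hcard
      have h3 : ldim G ≤ S.card := (ldim_le_iff G S.card).mpr ⟨S, hS, le_rfl⟩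
      rw [h] at h3
      exact_mod_cast h3
    have hR := (resolves_iff hG hdist).mp hS
    have hirr : ∀ x ∈ S, ∀ y ∈ S, G.Adj x y → nbr G S x ≠ nbr G S y := by
      intro x hx y hy hxy
      exact hR x y (by simp [hx, hy]) hxy
    obtain ⟨p, hp, q, hq, hpq, hna⟩ := exists_nonadj (by omega) hirr
    have h1 : ((S.erase p).erase q).card = 1 := by
      rw [card_erase_of_mem (mem_erase.mpr ⟨hpq.symm, hq⟩), card_erase_of_mem hp]; omega
    obtain ⟨r, hr⟩ := card_eq_one.mp h1
    have hr' : r ∈ (S.erase p).erase q := by rw [hr]; simp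
    rw [mem_erase, mem_erase] at hr'
    obtain ⟨hrq, hrp, hrS⟩ := hr'
    have hSeq : S = {p, r, q} := by
      have : S = insert p (insert q ((S.erase p).erase q)) := by
        rw [insert_erase (mem_erase.mpr ⟨hpq.symm, hq⟩), insert_erase hp]
      rw [this, hr]
      ext s
      simp only [mem_insert, mem_singleton]
      tauto
    have nbr1 : ∀ x y z : V, S = {x, y, z} → G.Adj x y → ¬ G.Adj x z → nbr G S x = 1 := by
      intro x y z e hxy hxz
      unfold nbr
      rw [card_eq_one]
      refine ⟨y, ?_⟩
      rw [e]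
      ext s
      simp only [mem_filter, mem_insert, mem_singleton]
      constructor
      · rintro ⟨h1 | h1 | h1, h2⟩
        · subst h1; exact absurd h2 (G.irrefl)
        · exact h1
        · subst h1; exact absurd h2 hxz
      · rintro rfl; exact ⟨Or.inr (Or.inl rfl), hxy⟩
    have e1 : S = {p, r, q} := hSeq
    have e2 : S = {r, p, q} := by rw [hSeq]; ext s; simp only [mem_insert, mem_singleton]; tauto
    have e3 : S = {q, r, p} := by rw [hSeq]; ext s; simp only [mem_insert, mem_singleton]; tauto
    have e4 : S = {r, q, p} := by rw [hSeq]; ext s; simp only [mem_insert, mem_singleton]; tauto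
    have hadj : G.Adj p r ∧ G.Adj r q := by
      by_cases h2 : G.Adj p r
      · by_cases h3 : G.Adj r q
        · exact ⟨h2, h3⟩
        · exfalso
          apply hirr p hp r hrS h2
          rw [nbr1 p r q e1 h2 hna, nbr1 r p q e2 h2.symm h3]
      · by_cases h3 : G.Adj r q
        · exfalso
          apply hirr q hq r hrS h3.symm
          rw [nbr1 q r p e3 h3.symm (fun h => hna h.symm), nbr1 r q p e4 h3 (fun h => h2 h.symm)]
        · exfalso
          obtain ⟨f, hp', hf, hf2⟩ := triple_coloring (S := S) hp hpq (Ne.symm hrp) hna h2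
            (fun h => h3 h.symm)
          have h5 := le_of_colorable hc (colorable_add hG hdist hS _ f p hp' hf hf2)
          rw [card_erase_of_mem (mem_erase.mpr ⟨hrq, hrS⟩), card_erase_of_mem hq] at h5
          omega
    refine ⟨p, r, q, hadj.1, hadj.2, hna, hpq, ?_⟩
    intro x y hx hy hxy
    rw [ncard_eq_nbr, ncard_eq_nbr, ← hSeq]
    have hx' : x ∉ S := by rw [hSeq]; simpa using hx
    have hy' : y ∉ S := by rw [hSeq]; simpa using hy
    exact hR x y (by simp [hx', hy']) hxy
  · rintro ⟨u, v, w, huv, hvw, huw, hne, h⟩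
    have hcardS : ({u, v, w} : Finset V).card = 3 := by
      rw [card_eq_three]
      exact ⟨u, v, w, huv.ne, hne, hvw.ne, rfl⟩
    have nu : nbr G {u, v, w} u = 1 := by
      unfold nbr
      rw [card_eq_one]
      refine ⟨v, ?_⟩
      ext s
      simp only [mem_filter, mem_insert, mem_singleton]
      constructor
      · rintro ⟨h1 | h1 | h1, h2⟩
        · subst h1; exact absurd h2 (G.irrefl)
        · exact h1
        · subst h1; exact absurd h2 huw
      · rintro rfl; exact ⟨Or.inr (Or.inl rfl), huv⟩
    have nw : nbr G {u, v, w} w = 1 := by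
      unfold nbr
      rw [card_eq_one]
      refine ⟨v, ?_⟩
      ext s
      simp only [mem_filter, mem_insert, mem_singleton]
      constructor
      · rintro ⟨h1 | h1 | h1, h2⟩
        · subst h1; exact absurd h2.symm huw
        · exact h1
        · subst h1; exact absurd h2 (G.irrefl)
      · rintro rfl; exact ⟨Or.inr (Or.inl rfl), hvw.symm⟩
    have nv : nbr G {u, v, w} v = 2 := by
      unfold nbr
      rw [card_eq_two]
      refine ⟨u, w, hne, ?_⟩
      ext s
      simp only [mem_filter, mem_insert, mem_singleton]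
      constructor
      · rintro ⟨h1 | h1 | h1, h2⟩
        · exact Or.inl h1
        · subst h1; exact absurd h2 (G.irrefl)
        · exact Or.inr h1
      · rintro (rfl | rfl)
        · exact ⟨Or.inl rfl, huv.symm⟩
        · exact ⟨Or.inr (Or.inr rfl), hvw⟩
    have hR : Resolves G {u, v, w} := by
      rw [resolves_iff hG hdist]
      intro x y hxy hadj
      by_cases hx : x ∈ ({u, v, w} : Finset V)
      · have hy : y ∈ ({u, v, w} : Finset V) := hxy.mp hx
        simp only [mem_insert, mem_singleton] at hx hy
        rcases hx with rfl | rfl | rfl <;> rcases hy with rfl | rfl | rfl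
        · exact absurd hadj G.irrefl
        · rw [nu, nv]; omega
        · exact absurd hadj huw
        · rw [nu, nv]; omega
        · exact absurd hadj G.irrefl
        · rw [nw, nv]; omega
        · exact absurd hadj.symm huw
        · rw [nw, nv]; omega
        · exact absurd hadj G.irrefl
      · have hy : y ∉ ({u, v, w} : Finset V) := fun h => hx (hxy.mpr h)
        have := h x y (by simpa using hx) (by simpa using hy) hadj
        rwa [ncard_eq_nbr, ncard_eq_nbr] at this
    apply le_antisymm
    · exact (ldim_le_iff G 3).mpr ⟨_, hR, hcardS.le⟩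
    · by_contra hlt
      push Not at hlt
      have h2 : ldim G ≤ 2 := le_of_lt_succ (n := 2) (by simpa using hlt)
      have := c_le_four hG hd (le_refl 2) hc h2
      omega

end Pool.Agent.Helper97_LMD
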