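import Pool.Agent.Helper97_LMD.Core

/-! Diameter two. -/

namespace Pool.Agent.Helper97_LMD

open Finset
open scoped Classical

variable {V : Type*} (G : SimpleGraph V) (S : Finset V)

/-- number of neighbours in `S` -/
noncomputable def nbr (x : V) : ℕ := (S.filter (fun s => G.Adj x s)).card

variable {G S}

theorem count_one (x : V) : Multiset.count 1 (mrep G S x) = nbr G S x := by
  unfold mrep nbr
  rw [Multiset.count_map]
  have : (Multiset.card (Multiset.filter (fun s => 1 = G.dist x s) S.val)) =
    (S.filter (fun s => 1 = G.dist x s)).card := rfl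
  rw [this]
  congr 1
  ext s
  rw [mem_filter, mem_filter, eq_comm, SimpleGraph.dist_eq_one_iff_adj]

theorem count_zero (hG : G.Connected) (x : V) :
    0 < Multiset.count 0 (mrep G S x) ↔ x ∈ S := by
  rw [Multiset.count_pos]
  unfold mrep
  rw [Multiset.mem_map]
  constructor
  · rintro ⟨s, hs, h⟩
    rw [hG.dist_eq_zero_iff] at h
    subst h
    exact hs
  · intro hx
    exact ⟨x, hx, by simp⟩

theorem nle_one (hG : G.Connected) (x : V) :
    nle G S x 1 = nbr G S x + (if x ∈ S then 1 else 0) := by
  unfold nle nbr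
  have : S.filter (fun s => G.dist x s ≤ 1) =
      S.filter (fun s => G.Adj x s) ∪ S.filter (fun s => s = x) := by
    ext s
    rw [mem_union, mem_filter, mem_filter, mem_filter]
    constructor
    · rintro ⟨h1, h2⟩
      rcases Nat.eq_zero_or_pos (G.dist x s) with h0 | h0
      · rw [hG.dist_eq_zero_iff] at h0
        exact Or.inr ⟨h1, h0.symm⟩
      · exact Or.inl ⟨h1, SimpleGraph.dist_eq_one_iff_adj.mp (by omega)⟩
    · rintro (⟨h1, h2⟩ | ⟨h1, h2⟩)
      · exact ⟨h1, (SimpleGraph.dist_eq_one_iff_adj.mpr h2).le⟩
      · subst h2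
        exact ⟨h1, by simp⟩
  rw [this, card_union_of_disjoint]
  · congr 1
    split_ifs with h
    · rw [filter_eq' S x, if_pos h, card_singleton]
    · rw [filter_eq' S x, if_neg h, card_empty]
  · rw [disjoint_left]
    intro s h1 h2
    rw [mem_filter] at h1 h2
    rw [h2.2] at h1
    exact G.irrefl h1.2

theorem nle_zero' (hG : G.Connected) (x : V) :
    nle G S x 0 = (if x ∈ S then 1 else 0) := by
  unfold nle
  have : S.filter (fun s => G.dist x s ≤ 0) = S.filter (fun s => s = x) := by
    ext s
    rw [mem_filter, mem_filter, Nat.le_zero, hG.dist_eq_zero_iff, eq_comm]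
  rw [this]
  split_ifs with h
  · rw [filter_eq' S x, if_pos h, card_singleton]
  · rw [filter_eq' S x, if_neg h, card_empty]

/-- In diameter two, the condition on edges inside or outside `S`. -/
theorem resolves_iff (hG : G.Connected) (hd : ∀ x y, G.dist x y ≤ 2) :
    Resolves G S ↔ ∀ x y, (x ∈ S ↔ y ∈ S) → G.Adj x y → nbr G S x ≠ nbr G S y := by
  constructor
  · intro h x y hxy hadj heq
    apply h x y hadj
    apply mrep_eq_of_nle
    intro i
    rcases Nat.lt_or_ge i 2 with hi | hi
    · interval_cases i
      · rw [nle_zero' hG, nle_zero' hG]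
        simp only [hxy]
      · rw [nle_one hG, nle_one hG, heq]
        simp only [hxy]
    · rw [nle_eq G S x i (fun s _ => (hd x s).trans hi),
        nle_eq G S y i (fun s _ => (hd y s).trans hi)]
  · intro h x y hadj heq
    apply h x y _ hadj
    · rw [← count_one, ← count_one, heq]
    · rw [← count_zero hG, ← count_zero hG, heq]

/-- The colouring in diameter two. -/
theorem colorable_add (hG : G.Connected) (hd : ∀ x y, G.dist x y ≤ 2) (hS : Resolves G S)
    (C : Finset V) (f : V → V) (p : V) (hp : p ∈ C) (hf : ∀ s ∈ S, f s ∈ C)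
    (hf2 : ∀ s ∈ S, ∀ t ∈ S, G.Adj s t → f s ≠ f t) : G.Colorable (S.card + C.card) := by
  rw [resolves_iff hG hd] at hS
  have hcard : ((Icc 1 S.card).disjSum C).card = S.card + C.card := by
    rw [card_disjSum, Nat.card_Icc]; simp
  rw [← hcard]
  let F : V → ℕ ⊕ V := fun x => if x ∈ S then Sum.inr (f x)
    else if nbr G S x = 0 then Sum.inr p else Sum.inl (nbr G S x)
  have F1 : ∀ x ∈ S, F x = Sum.inr (f x) := by intro x hx; simp [F, hx]
  have F2 : ∀ x ∉ S, nbr G S x = 0 → F x = Sum.inr p := by intro x hx h; simp [F, hx, h]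
  have F3 : ∀ x ∉ S, nbr G S x ≠ 0 → F x = Sum.inl (nbr G S x) := by
    intro x hx h; simp [F, hx, h]
  have hpos : ∀ x y, G.Adj x y → y ∈ S → nbr G S x ≠ 0 := by
    intro x y hxy hy h
    unfold nbr at h
    rw [card_eq_zero, filter_eq_empty_iff] at h
    exact h hy hxy
  apply colorable_of _ F
  · intro x
    by_cases hx : x ∈ S
    · rw [F1 x hx, inr_mem_disjSum]
      exact hf x hx
    · by_cases h0 : nbr G S x = 0
      · rw [F2 x hx h0, inr_mem_disjSum]
        exact hp
      · rw [F3 x hx h0, inl_mem_disjSum, mem_Icc]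
        exact ⟨Nat.one_le_iff_ne_zero.mpr h0, card_filter_le _ _⟩
  · intro x y hxy heq
    by_cases hx : x ∈ S
    · by_cases hy : y ∈ S
      · rw [F1 x hx, F1 y hy] at heq
        exact hf2 x hx y hy hxy (Sum.inr_injective heq)
      · have h0 := hpos y x hxy.symm hx
        rw [F1 x hx, F3 y hy h0] at heq
        exact absurd heq (by simp)
    · by_cases hy : y ∈ S
      · have h0 := hpos x y hxy hy
        rw [F1 y hy, F3 x hx h0] at heq
        exact absurd heq (by simp)
      · have hne := hS x y (by simp [hx, hy]) hxy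
        by_cases h0 : nbr G S x = 0
        · by_cases h1 : nbr G S y = 0
          · omega
          · rw [F2 x hx h0, F3 y hy h1] at heq
            exact absurd heq (by simp)
        · by_cases h1 : nbr G S y = 0
          · rw [F3 x hx h0, F2 y hy h1] at heq
            exact absurd heq (by simp)
          · rw [F3 x hx h0, F3 y hy h1] at heq
            exact hne (Sum.inl_injective heq)

/-- a colouring of an arbitrary graph on `S` identifying a non-adjacent pair -/
theorem pair_coloring {p q : V} (hp : p ∈ S) (hq : q ∈ S) (hpq : p ≠ q) (hna : ¬ G.Adj p q) :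
    ∃ (f : V → V), p ∈ S.erase q ∧ (∀ s ∈ S, f s ∈ S.erase q) ∧
      (∀ s ∈ S, ∀ t ∈ S, G.Adj s t → f s ≠ f t) := by
  refine ⟨fun s => if s = q then p else s, mem_erase.mpr ⟨hpq, hp⟩, ?_, ?_⟩
  · intro s hs
    by_cases h : s = q
    · simp only [h, if_true]; exact mem_erase.mpr ⟨hpq, hp⟩
    · simp only [h, if_false]; exact mem_erase.mpr ⟨h, hs⟩
  · intro s hs t ht hadj heq
    have hne := hadj.ne
    by_cases h1 : s = q
    · by_cases h2 : t = q
      · rw [h1, h2] at hne; exact hne rfl
      · simp only [h1, h2, if_true, if_false] at heq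
        rw [h1, ← heq] at hadj
        exact hna hadj.symm
    · by_cases h2 : t = q
      · simp only [h1, h2, if_true, if_false] at heq
        rw [h2, heq] at hadj
        exact hna hadj
      · simp only [h1, h2, if_false] at heq
        exact hne heq

/-- a colouring identifying an independent triple -/
theorem triple_coloring {p q r : V} (hp : p ∈ S) (hpq : p ≠ q) (hpr : p ≠ r)
    (h1 : ¬ G.Adj p q) (h2 : ¬ G.Adj p r) (h3 : ¬ G.Adj q r) :
    ∃ (f : V → V), p ∈ (S.erase q).erase r ∧ (∀ s ∈ S, f s ∈ (S.erase q).erase r) ∧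
      (∀ s ∈ S, ∀ t ∈ S, G.Adj s t → f s ≠ f t) := by
  have hpm : p ∈ (S.erase q).erase r := mem_erase.mpr ⟨hpr, mem_erase.mpr ⟨hpq, hp⟩⟩
  refine ⟨fun s => if s = q ∨ s = r then p else s, hpm, ?_, ?_⟩
  · intro s hs
    by_cases h : s = q ∨ s = r
    · simp only [h, if_true]; exact hpm
    · simp only [h, if_false]
      push Not at h
      exact mem_erase.mpr ⟨h.2, mem_erase.mpr ⟨h.1, hs⟩⟩
  · intro s hs t ht hadj heq
    have hne := hadj.ne
    by_cases ha : s = q ∨ s = r
    · by_cases hb : t = q ∨ t = r
      · rcases ha with ha | ha <;> rcases hb with hb | hb <;> subst ha <;> subst hb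
        · exact hne rfl
        · exact h3 hadj
        · exact h3 hadj.symm
        · exact hne rfl
      · simp only [ha, hb, if_true, if_false] at heq
        subst heq
        rcases ha with ha | ha <;> subst ha
        · exact h1 hadj.symm
        · exact h2 hadj.symm
    · by_cases hb : t = q ∨ t = r
      · simp only [ha, hb, if_true, if_false] at heq
        subst heq
        rcases hb with hb | hb <;> subst hb
        · exact h1 hadj
        · exact h2 hadj
      · simp only [ha, hb, if_false] at heq
        exact hne heq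

/-- a colouring identifying two disjoint non-adjacent pairs -/
theorem pairs_coloring {p q r t : V} (hp : p ∈ S) (hr : r ∈ S) (hpq : p ≠ q) (hpt : p ≠ t)
    (hrq : r ≠ q) (hrt : r ≠ t) (hpr : p ≠ r) (hqt : q ≠ t)
    (h1 : ¬ G.Adj p q) (h2 : ¬ G.Adj r t) :
    ∃ (f : V → V), p ∈ (S.erase q).erase t ∧ (∀ s ∈ S, f s ∈ (S.erase q).erase t) ∧
      (∀ s ∈ S, ∀ t ∈ S, G.Adj s t → f s ≠ f t) := by
  have hpm : p ∈ (S.erase q).erase t := mem_erase.mpr ⟨hpt, mem_erase.mpr ⟨hpq, hp⟩⟩
  have hrm : r ∈ (S.erase q).erase t := mem_erase.mpr ⟨hrt, mem_erase.mpr ⟨hrq, hr⟩⟩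
  refine ⟨fun s => if s = q then p else if s = t then r else s, hpm, ?_, ?_⟩
  · intro s hs
    by_cases h : s = q
    · simp only [h, if_true]; exact hpm
    · by_cases h' : s = t
      · simp only [h', hqt.symm, if_true, if_false]; exact hrm
      · simp only [h, h', if_false]
        exact mem_erase.mpr ⟨h', mem_erase.mpr ⟨h, hs⟩⟩
  · have key : ∀ s x : V, G.Adj s x →
        (if s = q then p else if s = t then r else s) ≠
        (if x = q then p else if x = t then r else x) := by
      intro s x hadj heq
      have hne := hadj.ne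
      split_ifs at heq with a b c d e g i j k
      · subst a; subst b; exact hne rfl
      · exact hpr heq
      · subst a; subst heq; exact h1 hadj.symm
      · exact hpr heq.symm
      · subst d; subst g; exact hne rfl
      · subst d; subst heq; exact h2 hadj.symm
      · subst i; subst heq; exact h1 hadj
      · subst j; subst heq; exact h2 hadj
      · exact hne heq
    intro s _ x _ hadj
    exact key s x hadj

end Pool.Agent.Helper97_LMD
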